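import Mathlib
import Pool.Agent.X158.CairnsLem

set_option autoImplicit false

namespace Pool.Agent.Results.MP_cc703c_co.FourDim

open Pool.Agent.X158.CairnsLem

/-- The 25 triangles of the complex. The ten vertices `A₀, A₁, B₁, B₂, B₃, B₄, C, D₁, D₂, D₃`
are numbered `0, 1, 2, 3, 4, 5, 6, 7, 8, 9`. -/
def triangles : List (Finset (Fin 10)) :=
  [{0, 2, 3}, {0, 3, 4}, {0, 4, 2}, {1, 2, 3}, {1, 3, 5}, {1, 5, 4}, {1, 4, 2}, {6, 3, 4}, {6, 4, 5}, {6, 5, 3}, {6, 0, 2}, {6, 0, 3}, {6, 0, 4}, {6, 1, 2}, {6, 1, 3}, {6, 1, 4}, {6, 1, 5}, {6, 2, 3}, {6, 2, 4}, {7, 8, 4}, {8, 9, 2}, {9, 7, 3}, {2, 3, 9}, {3, 4, 7}, {4, 2, 8}]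

/-- The four further edges `A₀A₁, CD₁, CD₂, CD₃`. -/
def extraEdges : List (Finset (Fin 10)) :=
  [{0, 1}, {6, 7}, {6, 8}, {6, 9}]

/-- The faces of the abstract complex: nonempty vertex sets contained in one of the triangles
or in one of the four further edges. -/
def IsFace (s : Finset (Fin 10)) : Prop :=
  s.Nonempty ∧ ∃ m ∈ triangles ++ extraEdges, s ⊆ m

/-- `Realizable n`: there is a (straight) simplicial complex in `ℝⁿ` that is combinatorially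
equivalent to the abstract complex. -/
def Realizable (n : ℕ) : Prop :=
  ∃ (K : Geometry.SimplicialComplex ℝ (EuclideanSpace ℝ (Fin n)))
    (e : {s : Finset (Fin 10) // IsFace s} ≃ K.faces),
    ∀ s t : {s : Finset (Fin 10) // IsFace s},
      (s : Finset (Fin 10)) ⊆ (t : Finset (Fin 10)) ↔
        ((e s : Finset (EuclideanSpace ℝ (Fin n))) ⊆ (e t : Finset (EuclideanSpace ℝ (Fin n))))

def pts : List (List ℤ) :=
  [[2,0,-1,-1], [0,-1,-2,0], [-2,-2,1,-2], [1,-2,0,0], [-1,0,1,-1], [-1,0,-1,2], [-2,-1,0,0], [0,0,0,2], [-2,-1,-1,-2], [1,0,0,-1]]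

def facets : List (List (Fin 10)) :=
  [[0,2,3], [0,3,4], [0,4,2], [1,2,3], [1,3,5], [1,5,4], [1,4,2], [6,3,4], [6,4,5], [6,5,3], [6,0,2], [6,0,3], [6,0,4], [6,1,2], [6,1,3], [6,1,4], [6,1,5], [6,2,3], [6,2,4], [7,8,4], [8,9,2], [9,7,3], [2,3,9], [3,4,7], [4,2,8], [0,1], [6,7], [6,8], [6,9]]

def sepData : List (List (List ℤ)) :=
  [[[-2,-1,-4,0,0],[-1,-3,-4,2,0],[14,7,12,-15,0],[10,25,33,-24,40],[11,-10,12,0,-4],[28,-20,9,-21,-35],[4,-13,-19,-28,-30],[3,-4,-2,-3,-2],[6,15,29,4,24],[9,-3,16,2,0],[6,3,19,-7,0],[9,-23,1,-13,-30],[9,-1,9,-2,3],[5,1,5,-12,-3],[5,-5,3,1,0],[4,3,4,-3,5],[6,3,4,-7,0],[12,-14,-7,-9,-15],[8,-8,3,-8,-9],[3,-4,-1,-4,-9],[-18,-11,-50,-6,-4],[-2,-1,-6,0,0],[-16,-9,-46,-10,-2],[4,-3,1,-3,-5],[9,-11,21,-3,0],[14,-4,18,-12,1],[16,-2,24,-12,5],[1,-11,-13,-8,-16]],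
   [[8,-1,12,4,0],[14,23,21,6,32],[14,17,21,-12,20],[29,-1,24,3,8],[25,1,21,6,10],[4,2,1,-3,0],[17,-3,12,-1,4],[14,15,21,-4,16],[19,7,41,17,20],[4,2,11,-3,0],[6,-2,9,3,0],[31,16,33,3,34],[0,-1,0,-3,-2],[1,1,1,2,2],[3,-1,6,-1,1],[14,17,21,2,20],[17,1,13,6,10],[12,-5,9,-7,-4],[-4,1,-6,17,20],[-24,-7,-36,-8,10],[-16,5,-24,14,26],[0,0,-1,-1,0],[9,2,1,12,20],[1,-3,5,-3,0],[10,-2,15,-9,2],[16,-2,24,-12,5],[-4,-14,-6,-26,-23]],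
   [[2,8,3,-7,3],[1,3,2,-2,3],[8,-9,9,4,3],[7,-3,6,-1,0],[1,3,-11,-32,-20],[12,-13,15,8,5],[1,5,3,-4,3],[1,3,4,-2,0],[3,9,17,-21,-10],[6,-7,9,3,0],[0,1,0,-1,0],[-2,7,-3,-9,-2],[1,-1,1,0,0],[3,-2,4,1,2],[6,18,9,-17,5],[3,-1,2,-1,0],[33,-30,28,-16,-11],[-4,-13,-6,31,34],[-12,3,-18,-4,5],[-16,5,-24,10,22],[-18,5,-38,-14,6],[3,-1,2,-1,0],[-1,3,3,-5,0],[4,0,6,-4,1],[16,-2,24,-12,5],[-12,16,-18,-20,-11]],
   [[0,0,0,-1,0],[0,-1,0,0,-1],[-5,-4,2,10,0],[1,-3,-5,-7,-7],[4,-2,-14,-12,3],[2,5,1,-3,8],[1,-11,-6,-1,-16],[-1,-10,-8,-6,-19],[-1,-7,-3,-5,-11],[12,-4,2,-7,0],[8,4,-2,-23,0],[3,-7,-1,-5,-9],[8,16,6,-9,28],[4,2,-6,-9,0],[1,-1,-1,-1,-1],[6,-6,0,-3,-4],[-7,1,4,16,16],[-3,-4,-4,-1,-5],[-10,-5,-8,11,0],[-17,-24,-20,-1,-31],[-1,-1,0,2,0],[-5,-18,9,12,0],[2,2,0,-3,4],[-4,-16,-6,3,-26],[3,-19,-11,-10,-27]],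
   [[9,-2,1,5,0],[8,-19,6,30,-7],[6,5,-7,4,4],[8,-2,-5,1,1],[4,2,-6,-1,0],[0,-11,-7,4,-13],[2,-9,-13,12,-20],[1,-3,-2,3,-4],[8,16,6,-5,28],[8,4,-2,13,0],[17,-1,4,20,7],[12,-4,2,7,0],[2,5,1,-2,8],[7,-4,2,3,5],[-2,-6,-2,3,-8],[2,-4,-4,7,-1],[-15,-6,1,-5,3],[-6,-15,-29,19,-24],[-19,-20,-7,4,-21],[0,-1,-1,2,0],[-1,-8,4,9,0],[-2,-14,-6,9,-22],[1,1,0,0,2],[7,-9,-8,12,-10]],
   [[-4,6,-3,1,0],[5,15,-8,-1,12],[-1,4,-3,-2,0],[6,18,-7,-9,17],[-9,18,-12,-8,-4],[-11,21,-14,-9,-5],[-9,17,-12,-7,-4],[4,-1,3,2,5],[1,3,0,0,3],[-3,10,-5,-2,0],[-5,14,-7,-6,0],[2,15,-5,-2,10],[2,-1,1,1,2],[6,40,-16,-9,13],[-2,2,1,4,5],[-33,-5,-11,-10,-2],[-13,14,-8,3,7],[-18,-8,-8,-1,-11],[2,0,0,1,3],[-4,6,-3,-2,0],[-1,6,-3,-2,2],[1,1,0,0,2],[-9,19,-12,-8,-2]],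
   [[1,3,-11,-19,-7],[6,-5,3,1,4],[4,10,-4,-11,12],[-12,16,-15,-17,-11],[-16,3,-20,-41,-33],[-9,10,-12,-14,-11],[-1,8,-4,-9,0],[5,15,-7,-35,1],[5,-4,2,-3,0],[12,-7,9,2,11],[1,3,-2,-4,2],[1,1,-2,-3,0],[19,-10,4,-8,7],[-7,-1,4,18,16],[-30,7,-25,-17,-1],[-23,11,-4,22,24],[-2,0,-2,-1,-1],[10,-5,2,0,8],[-8,6,-3,-4,0],[1,0,0,-1,1],[5,-2,2,-1,5],[-3,4,-4,-5,-3]],
   [[1,-2,-2,-3,0],[0,0,1,0,0],[2,1,8,6,5],[0,0,1,0,0],[1,-2,4,3,0],[11,9,23,19,31],[0,0,1,-1,0],[2,-4,7,5,0],[7,-5,20,-4,9],[0,0,3,2,0],[1,-2,9,8,0],[-12,-36,32,7,-37],[-1,0,2,7,6],[-9,-10,16,-3,-11],[-3,4,20,21,11],[-4,-2,-9,-5,0],[0,0,0,1,1],[0,0,1,1,1],[2,-4,7,-5,0],[3,-6,17,-1,0],[1,-2,12,6,0]],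
   [[-1,2,7,3,0],[0,2,3,2,2],[-2,21,24,16,17],[-1,2,0,1,0],[0,5,3,2,5],[-1,23,12,8,21],[-1,2,1,2,0],[-3,6,-1,-2,0],[0,1,0,0,1],[0,0,1,1,0],[-18,12,4,5,-17],[-9,12,6,4,1],[-5,1,-1,0,-1],[-2,3,3,2,2],[-6,4,-16,-7,3],[-14,8,4,5,-13],[0,-1,3,2,2],[-5,10,-3,-2,0],[-6,12,3,2,0],[-1,2,0,0,0]],
   [[0,-3,-2,2,-3],[0,0,1,2,0],[4,-15,6,22,-7],[0,-4,2,5,-4],[0,0,2,3,0],[3,-17,16,28,-11],[4,-8,14,9,0],[0,0,-1,0,0],[0,-1,2,2,-1],[-7,-10,4,5,-12],[-2,-5,-2,6,-4],[-9,-10,-25,-3,-11],[-2,-5,-25,-9,-8],[-5,-4,-17,-4,-3],[-1,-3,-1,2,-4],[-1,-3,14,9,10],[2,-4,-22,-5,0],[4,-8,-2,11,0],[1,-2,6,6,0]],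
   [[-1,2,1,-3,0],[1,-2,1,1,0],[-7,14,-6,-10,0],[-1,25,13,-20,23],[18,-25,21,20,11],[0,5,3,-4,5],[-1,2,-4,-3,0],[2,-4,-2,1,0],[7,-27,1,2,-10],[10,-35,-12,17,-4],[-6,-2,-16,-4,-3],[-11,-5,-39,-10,-13],[-3,-2,-9,-4,-4],[14,-33,-4,27,20],[-4,7,-3,-5,0],[1,-2,-2,-4,0],[4,-8,1,2,0],[5,-10,3,6,0]],
   [[1,-2,-1,3,0],[15,17,29,20,47],[0,0,1,-3,0],[6,16,7,31,28],[11,3,26,-9,25],[0,0,-1,0,0],[6,-7,-16,8,5],[2,-6,2,0,-1],[0,-3,-7,7,3],[-9,-10,-43,-3,-11],[-1,-1,-5,0,-1],[-14,-10,-53,-13,-6],[1,-1,-4,7,6],[-1,-3,4,-6,0],[2,-4,-1,-5,0],[1,-2,-11,8,0],[1,-2,-9,6,0]],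
   [[6,-1,9,8,11],[2,8,3,11,12],[4,-8,5,1,0],[6,-7,9,2,5],[0,1,0,0,1],[-3,6,-7,-4,0],[21,-60,26,-2,-7],[-7,10,-10,22,28],[-8,-3,-12,-7,-1],[-9,7,-13,0,6],[-18,10,-43,-19,6],[7,-4,-2,26,35],[1,-3,2,0,0],[2,-4,3,-1,0],[6,-12,9,-2,0],[-4,8,-6,-3,0]],
   [[-1,2,-1,-4,0],[1,-2,1,1,0],[0,0,0,-1,0],[-4,8,-14,-11,0],[1,-2,0,1,0],[-3,-14,-2,6,-15],[0,-1,0,1,0],[-7,2,-6,-3,-3],[-9,1,-9,2,-3],[-10,-6,-13,-5,-14],[0,-1,0,1,0],[-1,0,0,0,0],[1,-2,-2,-3,0],[6,-12,2,3,0],[7,-14,6,9,0]],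
   [[1,-2,1,5,0],[2,-4,2,-3,0],[0,0,-2,1,0],[5,-9,-7,13,1],[1,-8,1,1,-5],[-4,3,0,21,20],[-9,-10,-9,-3,-11],[-5,-1,-5,12,3],[-3,-4,-3,0,-5],[1,-4,-4,28,19],[-2,-6,3,3,0],[2,-4,-3,-5,0],[4,-8,-6,13,0],[2,-4,-3,12,0]],
   [[-1,2,-1,-2,0],[1,27,-11,-7,29],[-1,2,-2,-1,0],[8,-20,8,-1,-1],[-7,4,2,13,14],[-13,10,-14,-13,-9],[-5,6,-4,-1,3],[-2,0,-2,-1,-1],[0,0,0,1,1],[-2,2,-1,-1,0],[3,-2,0,-5,4],[9,-18,8,-3,0],[-5,10,-6,-3,0]],
   [[0,4,-2,-1,4],[0,-1,-3,2,-1],[-2,-6,-2,3,-8],[-2,-1,-2,2,-4],[-5,3,-3,-2,-1],[-17,-12,-38,3,-34],[-7,-3,-7,1,-8],[-4,-4,-2,6,-7],[-4,3,-1,0,1],[-3,6,-5,-2,0],[4,-8,-2,7,0],[-1,1,-2,0,-1]],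
   [[1,-2,-6,-2,0],[-26,-58,20,25,-60],[-5,-15,6,24,2],[-9,-10,-16,-3,-11],[-2,-1,0,3,0],[-5,-6,-8,-1,-7],[-7,-21,2,24,-10],[-1,-3,13,8,9],[2,-4,-4,-5,0],[2,-4,8,1,0],[1,-2,15,6,0]],
   [[-3,0,2,1,-4],[-5,4,6,5,2],[-18,-1,13,1,-23],[-7,5,12,10,4],[-2,0,-2,-1,-1],[-2,-1,2,4,0],[0,-1,3,2,2],[-1,2,2,-3,0],[0,0,1,0,0],[1,-2,6,3,0]],
   [[-13,18,2,5,4],[-27,1,12,2,-4],[-6,6,-2,4,5],[-3,2,-3,0,0],[-7,6,-2,5,0],[-2,6,-2,0,1],[-3,7,-2,0,0],[-7,16,-4,1,0],[-2,6,-2,0,1]],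
   [[-14,12,6,-19,-5],[-5,7,-6,-5,0],[0,0,-2,-2,-1],[4,-4,-2,-1,0],[-12,20,10,6,29],[2,-4,-2,0,-1],[0,1,1,-1,0],[-5,12,6,-5,0]],
   [[2,1,6,2,0],[2,1,0,0,0],[2,-1,-4,2,2],[-12,-2,22,-4,25],[11,-1,0,-2,4],[12,2,-8,4,9],[10,-4,0,9,-1]],
   [[-1,0,-4,-1,1],[19,-9,4,-18,-20],[-3,5,11,10,20],[10,-4,14,-8,-1],[16,-6,24,-12,-1],[3,-1,15,3,0]],
   [[18,4,2,5,21],[-2,-8,19,7,8],[3,-1,8,0,0],[20,14,8,-4,31],[8,-10,50,14,-11]],
   [[-14,12,6,-10,-3],[1,0,0,-1,1],[2,1,3,-4,0],[-3,4,2,-5,-6]],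
   [[-1,4,-3,-1,0],[1,1,-2,1,0],[-1,5,-3,0,0]],
   [[0,0,0,1,0],[-1,2,0,1,0]],
   [[-1,2,-1,0,0]],
   []]

def indData : List (List (List ℤ)) :=
  [[[-2,-1,-6,0,0],[-2,-1,-4,0,0],[1,0,2,0,0]],
   [[2,1,2,0,0],[0,-1,0,0,0],[2,1,4,0,0]],
   [[2,-1,2,0,0],[1,0,2,0,0],[0,-1,0,0,0]],
   [[-2,-1,-6,0,0],[-4,-2,1,0,0],[5,-4,2,0,0]],
   [[2,1,-2,0,0],[-1,-2,1,0,0],[-4,-2,1,0,0]],
   [[0,-1,0,0,0],[-1,2,-1,0,0],[-1,-2,1,0,0]],
   [[-2,1,-2,0,0],[-5,4,-2,0,0],[1,-2,1,0,0]],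
   [[-2,-1,-2,0,0],[1,-2,1,0,0],[0,0,1,0,0]],
   [[0,-1,0,0,0],[-1,2,1,0,0],[-1,2,-1,0,0]],
   [[-2,-1,2,0,0],[0,0,-1,0,0],[1,-2,-1,0,0]],
   [[-1,0,-2,0,0],[1,-2,-2,0,0],[1,-2,2,0,0]],
   [[-2,-1,-4,0,0],[0,0,-1,0,0],[1,-2,2,0,0]],
   [[0,-1,0,0,0],[1,-2,1,0,0],[1,-2,2,0,0]],
   [[-5,4,-2,0,0],[1,-2,-2,0,0],[1,-2,1,0,0]],
   [[-4,-2,1,0,0],[0,0,-1,0,0],[1,-2,1,0,0]],
   [[-1,0,0,1,0],[1,-2,0,-1,0],[0,0,0,-1,0]],
   [[-1,-2,1,0,0],[1,-2,-1,0,0],[-1,2,-1,0,0]],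
   [[-2,-1,-6,0,0],[0,0,1,0,0],[1,-2,-2,0,0]],
   [[-2,1,-2,0,0],[1,-2,1,0,0],[-1,2,2,0,0]],
   [[-1,0,0,1,0],[0,-1,0,0,0],[-1,2,0,0,0]],
   [[0,-1,-2,0,0],[3,-4,-2,0,0],[0,-1,1,0,0]],
   [[2,1,0,0,0],[2,1,0,2,0],[0,-1,0,0,0]],
   [[0,0,1,0,0],[0,-1,-2,0,0],[2,1,6,0,0]],
   [[0,-1,0,0,0],[-2,-1,0,0,0],[-2,-1,0,2,0]],
   [[-3,4,2,0,0],[1,-3,1,0,0],[-2,1,-2,0,0]],
   [[1,0,0,0,0],[0,-1,0,0,0]],
   [[-1,0,0,0,0],[0,0,0,1,0]],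
   [[-1,0,2,0,0],[0,0,-1,0,0]],
   [[0,-1,0,0,0],[1,-2,0,0,0]]]


abbrev E4 := EuclideanSpace ℝ (Fin 4)

/-- integer evaluation of the affine functional `c` at the vertex `v` -/
def ev (c : List ℤ) (v : Fin 10) : ℤ :=
  c.getD 0 0 * (pts.getD v.1 []).getD 0 0 + c.getD 1 0 * (pts.getD v.1 []).getD 1 0 +
  c.getD 2 0 * (pts.getD v.1 []).getD 2 0 + c.getD 3 0 * (pts.getD v.1 []).getD 3 0 + c.getD 4 0

def valid (c : List ℤ) (m m' : List (Fin 10)) : Bool :=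
  m.all (fun v => if v ∈ m' then decide (0 ≤ ev c v) else decide (0 < ev c v)) &&
  m'.all (fun v => decide (ev c v ≤ 0))

def Sep (m m' : List (Fin 10)) : Prop := ∃ c, valid c m m' = true

def chkRow (m : List (Fin 10)) : List (List (Fin 10)) → List (List ℤ) → Bool
  | [], _ => true
  | _ :: _, [] => false
  | m' :: ms, c :: cs => valid c m m' && chkRow m ms cs

def chk : List (List (Fin 10)) → List (List (List ℤ)) → Bool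
  | [], _ => true
  | _ :: _, [] => false
  | m :: ms, cs :: css => chkRow m ms cs && chk ms css

lemma chkRow_spec (m : List (Fin 10)) (ms : List (List (Fin 10))) :
    ∀ cs, chkRow m ms cs = true → ∀ m' ∈ ms, Sep m m' := by
  induction ms with
  | nil => intro cs _ m' h; simp at h
  | cons a ms ih =>
    intro cs h m' hm'
    cases cs with
    | nil => simp [chkRow] at h
    | cons c cs =>
      simp only [chkRow, Bool.and_eq_true] at h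
      rcases List.mem_cons.1 hm' with rfl | h'
      · exact ⟨c, h.1⟩
      · exact ih cs h.2 m' h'

lemma chk_spec (ms : List (List (Fin 10))) :
    ∀ css, chk ms css = true → ms.Pairwise Sep := by
  induction ms with
  | nil => intro css _; exact List.Pairwise.nil
  | cons a ms ih =>
    intro css h
    cases css with
    | nil => simp [chk] at h
    | cons c css =>
      simp only [chk, Bool.and_eq_true] at h
      exact List.Pairwise.cons (chkRow_spec a ms c h.1) (ih css h.2)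

def indRow (m : List (Fin 10)) : List (Fin 10) → List (List ℤ) → Bool
  | [], _ => true
  | _ :: _, [] => false
  | v :: vs, c :: cs => decide (ev c v ≠ 0) && m.all (fun w => decide (w = v) || decide (ev c w = 0)) &&
      indRow m vs cs

def indChk : List (List (Fin 10)) → List (List (List ℤ)) → Bool
  | [], _ => true
  | _ :: _, [] => false
  | m :: ms, cs :: css => indRow m m cs && indChk ms css

lemma indRow_spec (m vs : List (Fin 10)) : ∀ cs, indRow m vs cs = true → ∀ v ∈ vs,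
    ∃ c, ev c v ≠ 0 ∧ ∀ w ∈ m, w ≠ v → ev c w = 0 := by
  induction vs with
  | nil => intro cs _ v h; simp at h
  | cons a vs ih =>
    intro cs h v hv
    cases cs with
    | nil => simp [indRow] at h
    | cons c cs =>
      simp only [indRow, Bool.and_eq_true, decide_eq_true_eq, List.all_eq_true,
        Bool.or_eq_true] at h
      rcases List.mem_cons.1 hv with rfl | h'
      · exact ⟨c, h.1.1, fun w hw hwv => (h.1.2 w hw).resolve_left hwv⟩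
      · exact ih cs h.2 v h'

lemma indChk_spec (ms : List (List (Fin 10))) : ∀ css, indChk ms css = true → ∀ m ∈ ms,
    ∀ v ∈ m, ∃ c, ev c v ≠ 0 ∧ ∀ w ∈ m, w ≠ v → ev c w = 0 := by
  induction ms with
  | nil => intro css _ m h; simp at h
  | cons a ms ih =>
    intro css h m hm
    cases css with
    | nil => simp [indChk] at h
    | cons c css =>
      simp only [indChk, Bool.and_eq_true] at h
      rcases List.mem_cons.1 hm with rfl | h'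
      · exact indRow_spec m m c h.1
      · exact ih css h.2 m h'

lemma facets_pairwise : facets.Pairwise Sep := chk_spec facets sepData (by decide +kernel)

lemma facets_ind : ∀ m ∈ facets, ∀ v ∈ m, ∃ c, ev c v ≠ 0 ∧ ∀ w ∈ m, w ≠ v → ev c w = 0 :=
  indChk_spec facets indData (by decide +kernel)

lemma facets_eq : triangles ++ extraEdges = facets.map List.toFinset := by decide +kernel

/-- the realization on vertices -/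
noncomputable def P (v : Fin 10) : E4 :=
  WithLp.toLp 2 (fun k => (((pts.getD v.1 []).getD k.1 0 : ℤ) : ℝ))

lemma P_inj : Function.Injective P := by
  intro a b h
  have h1 : ∀ k : Fin 4, (pts.getD a.1 []).getD k.1 0 = (pts.getD b.1 []).getD k.1 0 := by
    intro k
    have := congrArg (fun x : E4 => x k) h
    simp only [P] at this
    exact_mod_cast this
  revert h1
  revert a b
  have : ∀ a b : Fin 10, (∀ k : Fin 4, (pts.getD a.1 []).getD k.1 0 = (pts.getD b.1 []).getD k.1 0) →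
      a = b := by decide +kernel
  intro a b _ h
  exact this a b h

/-- the linear functional -/
noncomputable def lin (c : List ℤ) : E4 →ₗ[ℝ] ℝ where
  toFun x := (c.getD 0 0 : ℝ) * x 0 + (c.getD 1 0 : ℝ) * x 1 + (c.getD 2 0 : ℝ) * x 2 +
    (c.getD 3 0 : ℝ) * x 3
  map_add' x y := by simp only [PiLp.add_apply]; ring
  map_smul' a x := by simp only [PiLp.smul_apply, smul_eq_mul, RingHom.id_apply]; ring

lemma lin_P (c : List ℤ) (v : Fin 10) : lin c (P v) + (c.getD 4 0 : ℝ) = (ev c v : ℝ) := by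
  simp only [lin, P, ev, LinearMap.coe_mk, AddHom.coe_mk]
  push_cast
  rfl

open Classical in
/-- image of a vertex set -/
noncomputable def im (s : Finset (Fin 10)) : Finset E4 := s.image P

lemma mem_im {s : Finset (Fin 10)} {x : E4} : x ∈ im s ↔ ∃ v ∈ s, P v = x := by
  classical
  simp [im]

lemma im_subset {s t : Finset (Fin 10)} : im s ⊆ im t ↔ s ⊆ t := by
  constructor
  · intro h v hv
    obtain ⟨w, hw, hwv⟩ := mem_im.1 (h (mem_im.2 ⟨v, hv, rfl⟩))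
    rwa [← P_inj hwv]
  · intro h x hx
    obtain ⟨v, hv, rfl⟩ := mem_im.1 hx
    exact mem_im.2 ⟨v, h hv, rfl⟩

lemma im_inj : Function.Injective im := by
  intro s t h
  exact Finset.Subset.antisymm (im_subset.1 h.subset) (im_subset.1 h.symm.subset)

lemma indep_facet (m : List (Fin 10)) (hm : m ∈ facets) :
    AffineIndependent ℝ ((↑) : im m.toFinset → E4) := by
  classical
  apply indep_of_dual
  intro x hx
  obtain ⟨v, hv, rfl⟩ := mem_im.1 hx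
  obtain ⟨c, hc1, hc2⟩ := facets_ind m hm v (List.mem_toFinset.1 hv)
  refine ⟨lin c, (c.getD 4 0 : ℝ), ?_, ?_⟩
  · rw [lin_P]; exact_mod_cast hc1
  · intro y hy hyv
    obtain ⟨w, hw, rfl⟩ := mem_im.1 hy
    rw [lin_P]
    exact_mod_cast hc2 w (List.mem_toFinset.1 hw) (fun h => hyv (by rw [h]))

lemma face_facet {s : Finset (Fin 10)} (hs : IsFace s) : ∃ m ∈ facets, s ⊆ m.toFinset := by
  obtain ⟨_, m, hm, hsm⟩ := hs
  rw [facets_eq] at hm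
  obtain ⟨l, hl, rfl⟩ := List.mem_map.1 hm
  exact ⟨l, hl, hsm⟩

lemma glue_sep {m m' : List (Fin 10)} (hm : m ∈ facets) (hm' : m' ∈ facets) (h : Sep m m')
    (s t : Finset (Fin 10)) (hs : s ⊆ m.toFinset) (ht : t ⊆ m'.toFinset) :
    convexHull ℝ (im s : Set E4) ∩ convexHull ℝ (im t : Set E4) ⊆
      convexHull ℝ ((im s : Set E4) ∩ (im t : Set E4)) := by
  classical
  obtain ⟨c, hc⟩ := h
  simp only [valid, Bool.and_eq_true, List.all_eq_true, decide_eq_true_eq] at hc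
  refine glue (im m.toFinset) (im m'.toFinset) (im s) (im t) (indep_facet m hm) (indep_facet m' hm')
    (im_subset.2 hs) (im_subset.2 ht) (lin c) (c.getD 4 0 : ℝ) ?_ ?_ ?_
  · intro x hx hx'
    obtain ⟨v, hv, rfl⟩ := mem_im.1 hx
    have hv' : v ∉ m' := fun h => hx' (mem_im.2 ⟨v, List.mem_toFinset.2 h, rfl⟩)
    have := hc.1 v (List.mem_toFinset.1 hv)
    rw [if_neg hv', decide_eq_true_eq] at this
    rw [lin_P]; exact_mod_cast this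
  · intro x hx
    obtain ⟨v, hv, rfl⟩ := mem_im.1 hx
    have := hc.1 v (List.mem_toFinset.1 hv)
    rw [lin_P]
    by_cases hv' : v ∈ m'
    · rw [if_pos hv', decide_eq_true_eq] at this
      exact_mod_cast this
    · rw [if_neg hv', decide_eq_true_eq] at this
      exact_mod_cast this.le
  · intro x hx
    obtain ⟨v, hv, rfl⟩ := mem_im.1 hx
    have := hc.2 v (List.mem_toFinset.1 hv)
    rw [lin_P]; exact_mod_cast this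

lemma glue_all (s t : Finset (Fin 10)) (hs : IsFace s) (ht : IsFace t) :
    convexHull ℝ (im s : Set E4) ∩ convexHull ℝ (im t : Set E4) ⊆
      convexHull ℝ ((im s : Set E4) ∩ (im t : Set E4)) := by
  classical
  obtain ⟨m, hm, hsm⟩ := face_facet hs
  obtain ⟨m', hm', htm⟩ := face_facet ht
  by_cases h : m = m'
  · subst h
    rw [← AffineIndependent.convexHull_inter (indep_facet m hm) (im_subset.2 hsm) (im_subset.2 htm)]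
  · have hpw : ∀ a ∈ facets, ∀ b ∈ facets, a ≠ b → (Sep a b ∨ Sep b a) := by
      have h1 : facets.Pairwise (fun a b => Sep a b ∨ Sep b a) :=
        facets_pairwise.imp (fun h => Or.inl h)
      intro a ha b hb hab
      have : Std.Symm (fun a b : List (Fin 10) => Sep a b ∨ Sep b a) :=
        ⟨fun _ _ h => Or.symm h⟩
      exact h1.forall ha hb hab
    rcases hpw m hm m' hm' h with h' | h'
    · exact glue_sep hm hm' h' s t hsm htm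
    · rw [Set.inter_comm, Set.inter_comm (im s : Set E4)]
      exact glue_sep hm' hm h' t s htm hsm

/-- the complex -/
noncomputable def K : Geometry.SimplicialComplex ℝ E4 where
  faces := {x | ∃ s, IsFace s ∧ im s = x}
  isRelLowerSet_faces := by
    intro x hx
    obtain ⟨s, hs, rfl⟩ := hx
    refine ⟨?_, ?_⟩
    · obtain ⟨v, hv⟩ := hs.1
      exact ⟨P v, mem_im.2 ⟨v, hv, rfl⟩⟩
    · intro y hy hne
      classical
      refine ⟨s.filter (fun v => P v ∈ y), ⟨?_, ?_⟩, ?_⟩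
      · obtain ⟨z, hz⟩ := hne
        obtain ⟨v, hv, hvz⟩ := mem_im.1 (hy hz)
        exact ⟨v, Finset.mem_filter.2 ⟨hv, by rw [hvz]; exact hz⟩⟩
      · obtain ⟨m, hm, hsm⟩ := hs.2
        exact ⟨m, hm, (Finset.filter_subset _ _).trans hsm⟩
      · ext z
        rw [mem_im]
        constructor
        · rintro ⟨v, hv, rfl⟩
          exact (Finset.mem_filter.1 hv).2
        · intro hz
          obtain ⟨v, hv, hvz⟩ := mem_im.1 (hy hz)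
          exact ⟨v, Finset.mem_filter.2 ⟨hv, by rw [hvz]; exact hz⟩, hvz⟩
  indep := by
    rintro x ⟨s, hs, rfl⟩
    obtain ⟨m, hm, hsm⟩ := face_facet hs
    exact (indep_facet m hm).mono (by exact_mod_cast im_subset.2 hsm)
  inter_subset_convexHull := by
    rintro x y ⟨s, hs, rfl⟩ ⟨t, ht, rfl⟩
    exact glue_all s t hs ht

/-- The 2-complex of the problem has a straight realization in `ℝ⁴`. -/
theorem result : Realizable 4 := by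
  refine ⟨K, Equiv.ofBijective (fun s => ⟨im s.1, s.1, s.2, rfl⟩) ⟨?_, ?_⟩, ?_⟩
  · intro s t h
    exact Subtype.ext (im_inj (congrArg Subtype.val h))
  · rintro ⟨x, s, hs, rfl⟩
    exact ⟨⟨s, hs⟩, rfl⟩
  · intro s t
    exact im_subset.symm

end Pool.Agent.Results.MP_cc703c_co.FourDim
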